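import Mathlib
import Pool.Agent.Y740.Z.Stm
import Pool.Agent.Helper259.AbsHt

set_option autoImplicit false

/-!
# Project ZF: the relative Dobrowolski inequality
-/

namespace Pool.Agent.Y686.ZF

open Polynomial Real NumberField Height Module
open Pool.Agent.Y740.Z
open Pool.Agent.Helper259.AbsHt

/-- the height of an element of a number field is invariant under automorphisms -/
lemma ht_aut {K : Type} [Field K] [NumberField K] (σ : K ≃+* K) (x : K) :
    logHeight₁ (σ x) = logHeight₁ x := by
  obtain ⟨φ⟩ : Nonempty (K →+* AlgebraicClosure ℚ) :=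
    ⟨(IsAlgClosed.lift (R := ℚ) (S := K) (M := AlgebraicClosure ℚ) : K →ₐ[ℚ] AlgebraicClosure ℚ)⟩
  have h1 := absLogHeight_eq K φ ![1, σ x]
  have h2 := absLogHeight_eq K (φ.comp (σ : K →+* K)) ![1, x]
  have e : (fun i => φ (![1, σ x] i)) = fun i => (φ.comp (σ : K →+* K)) (![1, x] i) := by
    funext i
    fin_cases i
    · simp
    · simp
  have hpos : (0 : ℝ) < finrank ℚ K := by
    have := Module.finrank_pos (R := ℚ) (M := K)
    exact_mod_cast this
  rw [e, h2, logHeight_swap, ← logHeight₁_eq_logHeight, logHeight_swap,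
    ← logHeight₁_eq_logHeight] at h1
  exact ((div_left_inj' hpos.ne').1 h1).symm

/-- Kronecker's theorem -/
lemma ht_pos {K : Type} [Field K] [NumberField K] (x : K)
    (hx : ∀ n : ℕ, 0 < n → x ^ n ≠ 1) (hx0 : x ≠ 0) : 0 < logHeight₁ x := by
  rcases (zero_le_logHeight₁ x).lt_or_eq with h | h
  · exact h
  exfalso
  have hfin := NumberField.finite_setOfPred_logHeight₁_le K 0
  have hmem : ∀ n : ℕ, x ^ n ∈ {x : K | logHeight₁ x ≤ 0} := by
    intro n
    show logHeight₁ (x ^ n) ≤ 0
    rw [logHeight₁_pow, ← h, mul_zero]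
  have hninj : ¬ Function.Injective fun n : ℕ => x ^ n := by
    intro hinj
    exact Set.infinite_range_of_injective hinj (hfin.subset (by
      rintro _ ⟨n, rfl⟩
      exact hmem n))
  rw [Function.Injective] at hninj
  push Not at hninj
  obtain ⟨i, j, hij, hne⟩ := hninj
  have hij' : x ^ i = x ^ j := hij
  wlog hlt : i < j generalizing i j with H
  · exact H j i hij.symm (Ne.symm hne) hij'.symm (lt_of_le_of_ne (not_lt.1 hlt) (Ne.symm hne))
  apply hx (j - i) (by omega)
  have h2 : x ^ j = x ^ i * x ^ (j - i) := by rw [← pow_add]; congr 1; omega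
  rw [h2] at hij'
  have h3 : x ^ i ≠ 0 := pow_ne_zero _ hx0
  exact mul_left_cancel₀ h3 (by rw [mul_one]; exact hij'.symm)

section roots

variable {L W : Type} [Field L] [Field W] [Algebra L W] [IsGalois L W]

/-- the conjugates -/
lemma exists_conj (α : W) (D : ℕ) (hD : (minpoly L α).natDegree = D) :
    ∃ a : Fin D → W, Function.Injective a ∧
      (∏ j, (X - C (a j)) : W[X]) = (minpoly L α).map (algebraMap L W) ∧
      ∀ y : W, (∃ j, a j = y) ↔ aeval y (minpoly L α) = 0 := by
  classical
  set g := (minpoly L α).map (algebraMap L W) with hg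
  have hint : IsIntegral L α := IsGalois.integral L α
  have hmon : g.Monic := (minpoly.monic hint).map _
  have hsplit : g.Splits := IsGalois.splits L α
  have hsep : g.Separable := Polynomial.Separable.map (IsGalois.separable L α)
  have hnd : g.roots.Nodup := nodup_roots hsep
  have hcard : g.roots.toFinset.card = D := by
    rw [Multiset.toFinset_card_of_nodup hnd, splits_iff_card_roots.1 hsplit, hg,
      natDegree_map, hD]
  let e : Fin D ≃ g.roots.toFinset := (Finset.equivFinOfCardEq hcard).symm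
  refine ⟨fun i => (e i : W), fun i j h => e.injective (Subtype.ext h), ?_, ?_⟩
  · have h1 : (∏ j : Fin D, (X - C ((e j : W))) : W[X]) = ∏ x : g.roots.toFinset, (X - C (x : W)) :=
      Equiv.prod_comp e (fun x : g.roots.toFinset => (X - C (x : W) : W[X]))
    rw [h1, Finset.prod_coe_sort g.roots.toFinset (fun x => (X - C x : W[X]))]
    have h2 := hsplit.eq_prod_roots
    rw [hmon.leadingCoeff, C_1, one_mul] at h2
    conv_rhs => rw [h2]
    rw [Finset.prod_multiset_map_count]
    refine Finset.prod_congr rfl fun x hx => ?_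
    rw [Multiset.count_eq_one_of_mem hnd (Multiset.mem_toFinset.1 hx), pow_one]
  · intro y
    have h3 : aeval y (minpoly L α) = 0 ↔ y ∈ g.roots.toFinset := by
      rw [Multiset.mem_toFinset, mem_roots hmon.ne_zero, IsRoot.def, hg, eval_map_algebraMap]
    rw [h3]
    constructor
    · rintro ⟨j, rfl⟩
      exact (e j).2
    · intro hy
      exact ⟨e.symm ⟨y, hy⟩, by simp⟩

lemma pow_inj (α : W) (D p : ℕ) (a : Fin D → W)
    (ha : ∀ y : W, (∃ j, a j = y) ↔ aeval y (minpoly L α) = 0)
    (hD : (minpoly L (α ^ p)).natDegree = D) : Function.Injective fun j => a j ^ p := by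
  classical
  obtain ⟨b, hb, -, hb2⟩ := exists_conj (L := L) (α ^ p) D hD
  have h1 : ∀ i, ∃ j, a j ^ p = b i := by
    intro i
    have h2 := (hb2 (b i)).1 ⟨i, rfl⟩
    obtain ⟨σ, hσ⟩ := minpoly.exists_algEquiv_of_root'
      (IsGalois.integral L (α ^ p)).isAlgebraic h2
    obtain ⟨j, hj⟩ := (ha (σ α)).2 (by
      have h3 : aeval (σ α) (minpoly L α) = σ (aeval α (minpoly L α)) := by
        rw [← aeval_algHom_apply]
      rw [h3, minpoly.aeval, map_zero])
    exact ⟨j, by rw [hj, ← map_pow, hσ]⟩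
  choose f hf using h1
  have hfinj : Function.Injective f := by
    intro i i' h
    apply hb
    rw [← hf, ← hf, h]
  have hfsurj := Finite.surjective_of_injective hfinj
  intro j j' h
  obtain ⟨i, rfl⟩ := hfsurj j
  obtain ⟨i', rfl⟩ := hfsurj j'
  have h2 : b i = b i' := by
    rw [← hf, ← hf]
    exact h
  rw [hb h2]

end roots

theorem t_RDI : S_FROB → S_INEQ → S_RDI := by
  intro hF hI W _ _ _ M ζ hM hζ α hα hα1 D hD P hP A N hA hN
  set L := IntermediateField.adjoin ℚ {ζ} with hL
  have hint : IsIntegral L α := IsGalois.integral L α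
  have hD0 : 0 < D := hD ▸ minpoly.natDegree_pos hint
  obtain ⟨a, hainj, haprod, haroot⟩ := exists_conj (L := L) α D hD
  -- the Frobenius automorphisms
  have hφ : ∀ p : ℕ, ∃ φ : W ≃ₐ[ℚ] W, (p = 1 → φ = AlgEquiv.refl) ∧ (p ∈ P → φ ζ = ζ ^ p) := by
    intro p
    by_cases hp : p ∈ P
    · obtain ⟨hp1, hp2, -⟩ := hP p hp
      have hcop : p.Coprime M := (Nat.Prime.coprime_iff_not_dvd hp1).2 hp2
      have h1 : minpoly ℚ ζ = minpoly ℚ (ζ ^ p) := by
        rw [← cyclotomic_eq_minpoly_rat hζ hM,
          ← cyclotomic_eq_minpoly_rat (hζ.pow_of_coprime p hcop) hM]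
      have h2 : aeval (ζ ^ p) (minpoly ℚ ζ) = 0 := by rw [h1, minpoly.aeval]
      obtain ⟨φ, hφ⟩ := minpoly.exists_algEquiv_of_root'
        (IsGalois.integral ℚ ζ).isAlgebraic h2
      exact ⟨φ, fun h => absurd (h ▸ hp1) Nat.not_prime_one, fun _ => hφ⟩
    · exact ⟨AlgEquiv.refl, fun _ => rfl, fun h => absurd h hp⟩
  choose φ hφ1 hφ2 using hφ
  -- heights
  have hpos : (0 : ℝ) < finrank ℚ W := by
    have := Module.finrank_pos (R := ℚ) (M := W)
    exact_mod_cast this
  have hha : ∀ i, logHeight₁ (a i) = logHeight₁ α := by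
    intro i
    obtain ⟨σ, hσ⟩ := minpoly.exists_algEquiv_of_root' hint.isAlgebraic ((haroot (a i)).1 ⟨i, rfl⟩)
    rw [← hσ]
    exact ht_aut σ.toRingEquiv α
  have hhz : ∀ p i, logHeight₁ (((φ p).symm (a i)) ^ p) = p * logHeight₁ α := by
    intro p i
    rw [logHeight₁_pow, ← hha i]
    congr 1
    exact ht_aut (φ p).symm.toRingEquiv (a i)
  have hαpos : 0 < logHeight₁ α := ht_pos α hα1 hα
  have hz1 : ∀ j, ((φ 1).symm (a j)) ^ 1 = a j := by
    intro j
    rw [hφ1 1 rfl, pow_one]
    rfl
  refine hI W D hD0 P (fun p hp => (hP p hp).1) (fun p i => ((φ p).symm (a i)) ^ p)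
    (logHeight₁ α / finrank ℚ W) ?_ ?_ ?_ A N hA hN
  · intro p hp q hq i j hne heq
    have heq' : ((φ p).symm (a i)) ^ p = ((φ q).symm (a j)) ^ q := heq
    have h1 : p = q := by
      have h2 := congrArg logHeight₁ heq'
      rw [hhz, hhz] at h2
      have h3 := mul_right_cancel₀ hαpos.ne' h2
      exact_mod_cast h3
    subst h1
    have hij : i ≠ j := fun h => hne (by rw [h])
    rw [← map_pow, ← map_pow] at heq'
    have h4 : a i ^ p = a j ^ p := (φ p).symm.injective heq'
    rw [Finset.mem_insert] at hp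
    rcases hp with rfl | hp
    · rw [pow_one, pow_one] at h4
      exact hij (hainj h4)
    · exact hij (pow_inj (L := L) α D p a haroot (hP p hp).2.2 h4)
  · intro p _ i
    show logHeight₁ (((φ p).symm (a i)) ^ p) = _
    rw [hhz]
    field_simp
  · intro p hp i v
    have h1 := hF W M ζ hM hζ (φ p) p (hP p hp).1 (hφ2 p hp) D a (by
      intro k
      rw [haprod, coeff_map]
      exact ((minpoly L α).coeff k).2) ((φ p).symm (a i)) i ((φ p).apply_symm_apply (a i)) v
    simp only [hz1]
    exact h1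

end Pool.Agent.Y686.ZF
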